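import Pool.Agent.helper73.BRZ.Spec

/-!
# Row MEC: invariance of the measure `dg / dl g`
-/

namespace Pool.Agent.BRZ

open Matrix Module Pool.Agent.PR Pool.Agent.SHL TensorProduct MeasureTheory
open scoped ENNReal ContDiff RealInnerProductSpace FourierTransform SchwartzMap

/-- change of variables -/
theorem MEC_aux {N : ℕ} (dl : EE N → ℝ) (hdl : Continuous dl) (L : EE N →ₗ[ℝ] EE N) (κ : ℝ)
    (hκ : 0 < κ) (hL : |LinearMap.det L| = κ) (hLd : ∀ g, dl (L g) = κ * dl g)
    (F : EE N → ℝ≥0∞) (hF : Measurable F) :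
    ∫⁻ g, F (L g) * ENNReal.ofReal ((dl g)⁻¹) = ∫⁻ g, F g * ENNReal.ofReal ((dl g)⁻¹) := by
  have hdet : LinearMap.det L ≠ 0 := by
    intro h0
    rw [h0, abs_zero] at hL
    exact hκ.ne hL
  have hG : Measurable (fun g => F g * ENNReal.ofReal ((dl g)⁻¹)) :=
    hF.mul (hdl.measurable.inv.ennreal_ofReal)
  have hLm : Measurable L := L.continuous_of_finiteDimensional.measurable
  have e1 : ∀ g, F (L g) * ENNReal.ofReal ((dl g)⁻¹) =
      ENNReal.ofReal κ * ((fun g => F g * ENNReal.ofReal ((dl g)⁻¹)) (L g)) := by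
    intro g
    have : (dl g)⁻¹ = κ * (dl (L g))⁻¹ := by
      rw [hLd, mul_inv, mul_inv_cancel_left₀ hκ.ne']
    rw [this, ENNReal.ofReal_mul hκ.le]
    ring
  calc ∫⁻ g, F (L g) * ENNReal.ofReal ((dl g)⁻¹)
      = ∫⁻ g, ENNReal.ofReal κ * ((fun g => F g * ENNReal.ofReal ((dl g)⁻¹)) (L g)) :=
        lintegral_congr e1
    _ = ENNReal.ofReal κ * ∫⁻ g, (fun g => F g * ENNReal.ofReal ((dl g)⁻¹)) (L g) := by
        rw [lintegral_const_mul]
        exact hG.comp hLm
    _ = ENNReal.ofReal κ * ∫⁻ g, F g * ENNReal.ofReal ((dl g)⁻¹) ∂(Measure.map L volume) := by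
        rw [lintegral_map hG hLm]
    _ = ENNReal.ofReal κ * (ENNReal.ofReal |(LinearMap.det L)⁻¹| *
          ∫⁻ g, F g * ENNReal.ofReal ((dl g)⁻¹)) := by
        rw [Measure.map_linearMap_addHaar_eq_smul_addHaar volume hdet, lintegral_smul_measure,
          smul_eq_mul]
    _ = ∫⁻ g, F g * ENNReal.ofReal ((dl g)⁻¹) := by
        rw [← mul_assoc, ← ENNReal.ofReal_mul hκ.le, abs_inv, hL, mul_inv_cancel₀ hκ.ne',
          ENNReal.ofReal_one, one_mul]

theorem MEC_act_one {d : ℕ} {D : Type} [DivisionRing D] [Algebra ℚ D] (S : SO d D)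
    (g : EE (d * d)) : S.act 1 g = g := by
  unfold SO.act
  have : (1 : ℝ) ⊗ₜ[ℚ] (1 : D) = 1 := rfl
  rw [this, one_mul, LinearEquiv.apply_symm_apply]

theorem MEC (hRAL : RAL_stmt) : MEC_stmt := by
  intro d D _ _ _ hd S F hF
  obtain ⟨-, h2, h3, -, -, h6, h7, h8, -, -, h11⟩ := hRAL d D hd S
  refine ⟨?_, ?_⟩
  · intro z hz
    have hn : 0 < |(nor z : ℝ)| := by
      apply lt_of_le_of_ne (abs_nonneg _)
      intro h0
      have h12 := h2 z (S.act z⁻¹ (S.ev 1))
      rw [h7, mul_inv_cancel₀ hz, MEC_act_one, h11, ← h0, zero_mul] at h12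
      exact one_ne_zero h12
    obtain ⟨L, hL, hdet⟩ := h6 z
    have := MEC_aux S.dl h3 L _ hn hdet (fun g => by rw [hL, h2]) F hF
    simp only [hL] at this
    exact this
  · intro c hc
    have hn : 0 < |c| ^ (d * d) := pow_pos (abs_pos.2 hc) _
    have hdet : |LinearMap.det (c • (LinearMap.id : EE (d * d) →ₗ[ℝ] EE (d * d)))| =
        |c| ^ (d * d) := by
      rw [LinearMap.det_smul, LinearMap.det_id, mul_one, abs_pow, finrank_euclideanSpace,
        Fintype.card_fin]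
    have := MEC_aux S.dl h3 (c • LinearMap.id) _ hn hdet
      (fun g => by rw [LinearMap.smul_apply, LinearMap.id_apply, h8]) F hF
    simp only [LinearMap.smul_apply, LinearMap.id_apply] at this
    exact this

end Pool.Agent.BRZ
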